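import Pool.Agent.THS.StmtsN

/-! Row DIL of squad THS: dilation of the data. -/

set_option autoImplicit false

open scoped BigOperators

namespace Pool.Agent.THS.H44

/-- iterated quasi-periodicity -/
theorem per_iter {K : Type} [Field K] {g N : ℕ} {α β : K} {T : ℤ → (Fin g → ZMod 2) → K}
    (hβ : β ≠ 0) (per : ∀ k c, T (k + N) c = α * β ^ k * T k c) (u : ℕ) (k : ℤ)
    (c : Fin g → ZMod 2) :
    T (k + u * N) c = α ^ u * β ^ ((u : ℤ) * k) * β ^ (N * (u * (u - 1) / 2)) * T k c := by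
  induction u with
  | zero => simp
  | succ u ih =>
    have e1 : k + ((u + 1 : ℕ) : ℤ) * N = (k + u * N) + N := by
      push_cast
      ring
    rw [e1, per, ih, Nat.triangle_succ]
    have e2 : β ^ (k + (u : ℤ) * N) * (β ^ ((u : ℤ) * k) * β ^ (N * (u * (u - 1) / 2))) =
        β ^ (((u + 1 : ℕ) : ℤ) * k) * β ^ (N * (u * (u - 1) / 2 + u)) := by
      rw [← zpow_natCast β (N * (u * (u - 1) / 2)), ← zpow_natCast β (N * (u * (u - 1) / 2 + u)),
        ← zpow_add₀ hβ, ← zpow_add₀ hβ, ← zpow_add₀ hβ]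
      congr 1
      push_cast
      ring
    calc α * β ^ (k + (u : ℤ) * N) * (α ^ u * β ^ ((u : ℤ) * k) *
          β ^ (N * (u * (u - 1) / 2)) * T k c) =
        α ^ u * α * (β ^ (k + (u : ℤ) * N) * (β ^ ((u : ℤ) * k) *
          β ^ (N * (u * (u - 1) / 2)))) * T k c := by ring
      _ = α ^ (u + 1) * β ^ (((u + 1 : ℕ) : ℤ) * k) * β ^ (N * (u * (u - 1) / 2 + u)) *
          T k c := by
        rw [e2, pow_succ]
        ring

theorem dil : DilStatement := by
  intro K _ g N α β T x c h hc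
  have hev : c * (c - 1) / 2 * 2 = c * (c - 1) := Nat.div_mul_cancel (Nat.even_mul_pred_self c).two_dvd
  have hsq : c * (c - 1) + c = c ^ 2 := by
    obtain ⟨m, rfl⟩ : ∃ m, c = m + 1 := ⟨c - 1, by omega⟩
    simp only [Nat.add_sub_cancel]
    ring
  refine ⟨h.hN, mul_ne_zero (pow_ne_zero _ h.hα) (pow_ne_zero _ h.hβ), pow_ne_zero _ h.hβ, ?_,
    fun k => h.T0 _, fun k => h.x0 _, ?_, ?_, ?_⟩
  · calc (α ^ c * β ^ (N * (c * (c - 1) / 2))) ^ 2 =
          (α ^ 2) ^ c * β ^ (N * (c * (c - 1) / 2 * 2)) := by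
          rw [mul_pow, ← pow_mul, ← pow_mul, ← pow_mul, mul_comm c 2, mul_assoc N]
      _ = β ^ (N * c ^ 2) := by
          rw [h.ab, hev, ← pow_mul, ← pow_add, ← hsq]
          congr 1
          ring
      _ = (β ^ (c ^ 2)) ^ N := by rw [← pow_mul, mul_comm]
  · intro k c'
    have e1 : (c : ℤ) * (k + N) = (c * k) + c * N := by ring
    have e2 := per_iter h.hβ h.per c ((c : ℤ) * k) c'
    have e3 : β ^ ((c : ℤ) * ((c : ℤ) * k)) = (β ^ (c ^ 2)) ^ k := by
      rw [← zpow_natCast β (c ^ 2), ← zpow_mul]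
      congr 1
      push_cast
      ring
    change T ((c : ℤ) * (k + N)) c' = _
    rw [e1, e2, e3]
    ring
  · intro k b
    have e1 : (c : ℤ) * (2 * k) = 2 * (c * k) := by ring
    have e2 := h.dup ((c : ℤ) * k) b
    simp only [e1, mul_zero]
    exact e2
  · intro i j
    have e1 : (c : ℤ) * (i + j) = c * i + c * j := by ring
    have e2 : (c : ℤ) * (i - j) = c * i - c * j := by ring
    simp only [e1, e2]
    exact h.rel ((c : ℤ) * i) ((c : ℤ) * j)

end Pool.Agent.THS.H44
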