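import Pool.Agent.THS.StmtsN

/-! Row FOI of squad THS: the Fourier transform is unimodular off 2. -/

set_option autoImplicit false

open scoped BigOperators

namespace Pool.Agent.THS.H44

theorem nonarch_sum {K ι : Type} [Field K] {v : AbsoluteValue K ℝ} (hv : IsNonarchimedean v)
    (s : Finset ι) (f : ι → K) {M : ℝ} (hM : 0 ≤ M) (h : ∀ i ∈ s, v (f i) ≤ M) :
    v (∑ i ∈ s, f i) ≤ M := by
  classical
  induction s using Finset.induction_on with
  | empty => simpa using hM
  | insert a s ha ih =>
    rw [Finset.sum_insert ha]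
    exact (hv _ _).trans (max_le (h a (Finset.mem_insert_self a s))
      (ih fun i hi => h i (Finset.mem_insert_of_mem hi)))

theorem v_sgn {K : Type} [Field K] (v : AbsoluteValue K ℝ) {g : ℕ} (b c : Fin g → ZMod 2) :
    v ((sgn b c : ℤ) : K) = 1 := by
  unfold sgn
  rw [Int.cast_pow, Int.cast_neg, Int.cast_one, map_pow, v.map_neg, v.map_one, one_pow]

theorem sgn_comm {g : ℕ} (b c : Fin g → ZMod 2) : sgn b c = sgn c b := by
  unfold sgn
  simp only [mul_comm]

theorem le_nv {K ι : Type} [Field K] [Finite ι] (v : AbsoluteValue K ℝ) (x : ι → K) (i : ι) :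
    v (x i) ≤ nv v x :=
  le_ciSup (f := fun i => v (x i)) (Set.finite_range _).bddAbove i

theorem nv_nonneg {K ι : Type} [Field K] (v : AbsoluteValue K ℝ) (x : ι → K) : 0 ≤ nv v x :=
  Real.iSup_nonneg fun _ => v.nonneg _

theorem foi (ort : OrtStatement) : FoiStatement := by
  intro K _ v g X hv h2
  refine le_antisymm ?_ ?_
  · refine ciSup_le fun t => nonarch_sum hv _ _ (nv_nonneg v X) fun b _ => ?_
    rw [map_mul, v_sgn, one_mul]
    exact le_nv v X (t.1, b)
  · refine ciSup_le fun t => ?_
    obtain ⟨a, b⟩ := t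
    set W : (Fin g → ZMod 2) × (Fin g → ZMod 2) → K := fun t =>
      ∑ b, (sgn b (t.1 + t.2) : K) * X (t.1, b) with hW
    have h3 : (2 : K) ^ g * X (a, b) = ∑ d, (sgn b (a + d) : K) * W (a, d) := by
      have e1 : ∀ b' : Fin g → ZMod 2, ∑ d, ((sgn b (a + d) : ℤ) : K) * ((sgn b' (a + d) : ℤ) : K) =
          if b = b' then (2 : K) ^ g else 0 := by
        intro b'
        have e2 : ∑ d, ((sgn b (a + d) : ℤ) : K) * ((sgn b' (a + d) : ℤ) : K) =
            ∑ e, ((sgn b e : ℤ) : K) * ((sgn b' e : ℤ) : K) :=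
          Equiv.sum_comp (Equiv.addLeft a) fun e => ((sgn b e : ℤ) : K) * ((sgn b' e : ℤ) : K)
        have e3 := ort g b b'
        have e4 := congrArg (fun z : ℤ => (z : K)) e3
        simp only [Int.cast_sum, Int.cast_mul] at e4
        rw [e2]
        simp only [sgn_comm b, sgn_comm b']
        rw [e4]
        split_ifs <;> simp
      calc (2 : K) ^ g * X (a, b) = ∑ b', (if b = b' then (2 : K) ^ g else 0) * X (a, b') := by
            simp
        _ = ∑ b', (∑ d, ((sgn b (a + d) : ℤ) : K) * ((sgn b' (a + d) : ℤ) : K)) * X (a, b') := by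
            simp only [e1]
        _ = ∑ d, (sgn b (a + d) : K) * W (a, d) := by
            simp only [hW, Finset.mul_sum, Finset.sum_mul]
            rw [Finset.sum_comm]
            refine Finset.sum_congr rfl fun d _ => Finset.sum_congr rfl fun b' _ => ?_
            ring
    have h4 : v (X (a, b)) = v ((2 : K) ^ g * X (a, b)) := by
      rw [map_mul, map_pow, h2, one_pow, one_mul]
    change v (X (a, b)) ≤ nv v W
    rw [h4, h3]
    refine nonarch_sum hv _ _ (nv_nonneg v W) fun d _ => ?_
    rw [map_mul, v_sgn, one_mul]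
    exact le_nv v W (a, d)

end Pool.Agent.THS.H44
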