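import Pool.Agent.THS.StmtsT

/-! Row KLA of squad THS: a torsion point at which all `Theta_c` are proportional to the values at
zero is a lattice point. -/

set_option autoImplicit false

open scoped BigOperators

namespace Pool.Agent.THS.H44

theorem sum_mul_single {g : ℕ} (i : Fin g) (f : Fin g → ℂ) :
    ∑ j, f j * (((Pi.single i 1 : Fin g → ℤ) j : ℤ) : ℂ) = f i := by
  simp [Pi.single_apply]

theorem sum_single_mul {g : ℕ} (i : Fin g) (f : Fin g → ℂ) :
    ∑ j, (((Pi.single i 1 : Fin g → ℤ) j : ℤ) : ℂ) * f j = f i := by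
  simp [Pi.single_apply]

theorem kla (kmo : KmoStatement) (tpe : TpeStatement) (tnv : TnvStatement) : KlaStatement := by
  intro g τ hτ w lam M p q hM h1 h2
  obtain ⟨ζ, hζ, hk⟩ := kmo g τ hτ w lam M p q hM h1 h2
  obtain ⟨u0, hu0⟩ := tnv g τ hτ
  have hMc : (M : ℂ) ≠ 0 := Nat.cast_ne_zero.mpr hM.ne'
  have hpi : (2 * Real.pi * Complex.I : ℂ) ≠ 0 := Complex.two_pi_I_ne_zero
  set A : ℂ := ths τ 0 (fun j => u0 j + w j) with hA
  set E : ℂ := 2 * Real.pi * Complex.I * (∑ j, (q j : ℂ) * u0 j) / (M : ℂ) with hE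
  have hk0 : A * Complex.exp E = ζ * ths τ 0 u0 := hk u0
  have hA0 : A ≠ 0 := by
    intro h0
    rw [h0, zero_mul] at hk0
    exact mul_ne_zero hζ hu0 hk0.symm
  -- step (i)
  have hq : ∀ i, ∃ k : ℤ, (q i : ℂ) = (M : ℂ) * (k : ℂ) := by
    intro i
    have t1 := (tpe g τ hτ.1 0 u0 (Pi.single i 1)).2.1
    have t2 := (tpe g τ hτ.1 0 (fun j => u0 j + w j) (Pi.single i 1)).2.1
    have hs : (2 * Real.pi * Complex.I * ∑ j, ((((0 : Fin g → ℝ) j : ℝ) : ℂ)) *
        (((Pi.single i 1 : Fin g → ℤ) j : ℤ) : ℂ) : ℂ) = 0 := by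
      simp
    rw [hs, Complex.exp_zero, one_mul] at t1 t2
    have h3 := hk (fun j => u0 j + (((Pi.single i 1 : Fin g → ℤ) j : ℤ) : ℂ))
    have e1 : (fun j => u0 j + (((Pi.single i 1 : Fin g → ℤ) j : ℤ) : ℂ) + w j) =
        fun j => u0 j + w j + (((Pi.single i 1 : Fin g → ℤ) j : ℤ) : ℂ) := by
      funext j
      ring
    have e2 : 2 * Real.pi * Complex.I * (∑ j, (q j : ℂ) *
        (u0 j + (((Pi.single i 1 : Fin g → ℤ) j : ℤ) : ℂ))) / (M : ℂ) =
        E + 2 * Real.pi * Complex.I * (q i : ℂ) / (M : ℂ) := by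
      simp only [mul_add, Finset.sum_add_distrib]
      rw [sum_mul_single i (fun j => (q j : ℂ)), hE]
      ring
    rw [e1, t2, t1, e2, Complex.exp_add, ← hk0, ← hA, ← mul_assoc] at h3
    have h4 : Complex.exp (2 * Real.pi * Complex.I * (q i : ℂ) / (M : ℂ)) = 1 :=
      mul_left_cancel₀ (mul_ne_zero hA0 (Complex.exp_ne_zero E)) (by rw [h3, mul_one])
    obtain ⟨k, hk'⟩ := Complex.exp_eq_one_iff.mp h4
    refine ⟨k, ?_⟩
    have h5 : (2 * Real.pi * Complex.I : ℂ) * (q i : ℂ) =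
        (2 * Real.pi * Complex.I) * ((M : ℂ) * (k : ℂ)) := by
      rw [div_eq_iff hMc] at hk'
      rw [hk']
      ring
    exact mul_left_cancel₀ hpi h5
  choose v hv using hq
  -- step (ii)
  have hn : ∀ i, ∃ k : ℤ, w i = (k : ℂ) + ∑ j, τ i j * (v j : ℂ) := by
    intro i
    have t1 := (tpe g τ hτ.1 0 u0 (Pi.single i 1)).2.2.1
    have t2 := (tpe g τ hτ.1 0 (fun j => u0 j + w j) (Pi.single i 1)).2.2.1
    have h3 := hk (fun l => u0 l + ∑ j, τ l j * (((Pi.single i 1 : Fin g → ℤ) j : ℤ) : ℂ))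
    have e1 : (fun l => u0 l + (∑ j, τ l j * (((Pi.single i 1 : Fin g → ℤ) j : ℤ) : ℂ)) + w l) =
        fun l => u0 l + w l + ∑ j, τ l j * (((Pi.single i 1 : Fin g → ℤ) j : ℤ) : ℂ) := by
      funext j
      ring
    have e2 : 2 * Real.pi * Complex.I * (∑ l, (q l : ℂ) *
        (u0 l + ∑ j, τ l j * (((Pi.single i 1 : Fin g → ℤ) j : ℤ) : ℂ))) / (M : ℂ) =
        E + 2 * Real.pi * Complex.I * ∑ l, (v l : ℂ) * τ l i := by
      have e3 : ∀ l, ∑ j, τ l j * (((Pi.single i 1 : Fin g → ℤ) j : ℤ) : ℂ) = τ l i :=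
        fun l => sum_mul_single i (fun j => τ l j)
      simp only [e3, mul_add, Finset.sum_add_distrib]
      have e4 : ∑ l, (q l : ℂ) * τ l i = (M : ℂ) * ∑ l, (v l : ℂ) * τ l i := by
        rw [Finset.mul_sum]
        refine Finset.sum_congr rfl fun l _ => ?_
        rw [hv l]
        ring
      rw [e4, hE, add_div]
      congr 1
      field_simp
    have e5 : ∀ z : Fin g → ℂ, Complex.exp (-(Real.pi * Complex.I * ∑ i_1, ∑ j,
        ((((Pi.single i 1 : Fin g → ℤ) i_1 : ℤ)) : ℂ) * τ i_1 j *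
          ((((Pi.single i 1 : Fin g → ℤ) j : ℤ)) : ℂ))
            - 2 * Real.pi * Complex.I * ∑ i_1, ((((Pi.single i 1 : Fin g → ℤ) i_1 : ℤ)) : ℂ) * z i_1)
        = Complex.exp (-(Real.pi * Complex.I * ∑ i_1, ∑ j,
        ((((Pi.single i 1 : Fin g → ℤ) i_1 : ℤ)) : ℂ) * τ i_1 j *
          ((((Pi.single i 1 : Fin g → ℤ) j : ℤ)) : ℂ))) *
          Complex.exp (-(2 * Real.pi * Complex.I * z i)) := by
      intro z
      rw [sum_single_mul i z, sub_eq_add_neg, Complex.exp_add]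
    rw [e5] at t1 t2
    set D : ℂ := Complex.exp (-(Real.pi * Complex.I * ∑ i_1, ∑ j,
        ((((Pi.single i 1 : Fin g → ℤ) i_1 : ℤ)) : ℂ) * τ i_1 j *
          ((((Pi.single i 1 : Fin g → ℤ) j : ℤ)) : ℂ))) with hD
    have hD0 : D ≠ 0 := Complex.exp_ne_zero _
    rw [e1, t2, t1, e2, Complex.exp_add, ← hA] at h3
    have e6 : Complex.exp (-(2 * Real.pi * Complex.I * (u0 i + w i))) =
        Complex.exp (-(2 * Real.pi * Complex.I * u0 i)) *
          Complex.exp (-(2 * Real.pi * Complex.I * w i)) := by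
      rw [← Complex.exp_add]
      congr 1
      ring
    rw [e6] at h3
    set X : ℂ := Complex.exp (-(2 * Real.pi * Complex.I * u0 i)) with hX
    have hX0 : X ≠ 0 := Complex.exp_ne_zero _
    have h4 : Complex.exp (-(2 * Real.pi * Complex.I * w i)) *
        Complex.exp (2 * Real.pi * Complex.I * ∑ l, (v l : ℂ) * τ l i) = 1 := by
      have h5 : (D * X * (A * Complex.exp E)) *
          (Complex.exp (-(2 * Real.pi * Complex.I * w i)) *
            Complex.exp (2 * Real.pi * Complex.I * ∑ l, (v l : ℂ) * τ l i)) =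
          (D * X * (A * Complex.exp E)) * 1 := by
        calc _ = D * (X * Complex.exp (-(2 * Real.pi * Complex.I * w i))) * A *
              (Complex.exp E * Complex.exp (2 * Real.pi * Complex.I *
                ∑ l, (v l : ℂ) * τ l i)) := by ring
          _ = ζ * (D * X * ths τ 0 u0) := h3
          _ = (D * X * (A * Complex.exp E)) * 1 := by
            rw [hk0]
            ring
      exact mul_left_cancel₀ (mul_ne_zero (mul_ne_zero hD0 hX0)
        (mul_ne_zero hA0 (Complex.exp_ne_zero E))) h5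
    rw [← Complex.exp_add] at h4
    obtain ⟨k, hk'⟩ := Complex.exp_eq_one_iff.mp h4
    refine ⟨-k, ?_⟩
    have h6 : (2 * Real.pi * Complex.I : ℂ) * w i =
        (2 * Real.pi * Complex.I) * (((-k : ℤ) : ℂ) + ∑ l, (v l : ℂ) * τ l i) := by
      push_cast
      linear_combination -hk'
    have h7 := mul_left_cancel₀ hpi h6
    rw [h7]
    refine congrArg₂ (· + ·) rfl (Finset.sum_congr rfl fun j _ => ?_)
    have hsym : τ j i = τ i j := congrFun (congrFun hτ.1 i) j
    rw [hsym]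
    ring
  choose k hk' using hn
  exact ⟨k, v, hk'⟩

end Pool.Agent.THS.H44
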