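import Pool.Agent.THS.StmtsB

/-! Row OUA of squad THS: the output of the algebra blocks A and B. -/

set_option autoImplicit false

open scoped BigOperators

namespace Pool.Agent.THS.H44

theorem oua (lgr : LgrStatement) (fpe : FpeStatement) (mnv : MnvStatement) (per : PerStatement)
    (ftp : FtpStatement) : OuaStatement := by
  intro g d σ C _ _
  obtain ⟨r, S0, hr, H⟩ := mnv g d σ C
  refine ⟨(2 * (d * r) ^ 2).factorial, S0, ?_⟩
  intro K _ _ hd N α β T x hT S hS hPC hH
  by_cases h : ∑ v ∈ S, lN v ≤ S0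
  · exact Or.inl h
  refine Or.inr ⟨(2 * (d * r) ^ 2).factorial, Nat.factorial_pos _, le_rfl, ?_⟩
  obtain ⟨u, hu0, hu⟩ := lgr N hT.hN
  refine ftp K g N α β T x u (((2 * (d * r) ^ 2).factorial : ℕ) : ℤ) hT.toNSeq hu0 fun a => ?_
  have h1 := per K d r N (ff β T u a) hd hr hT.hN
    (fpe K g N α β T x u a hT.toNSeq hu)
    (H K hd N α β T x hT S hS hPC hH (not_le.mp h) u a hu) 0
  rwa [zero_add] at h1

end Pool.Agent.THS.H44
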