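import Pool.Agent.THS.StmtsG

/-! Row THD of squad THS: theta functions give the data of the blocks A and N. -/

set_option autoImplicit false

open scoped BigOperators

namespace Pool.Agent.THS.H44

theorem exp_neg_four_int (P : ℤ) : Complex.exp (-(4 * Real.pi * Complex.I * (P : ℂ))) = 1 := by
  rw [Complex.exp_eq_one_iff]
  refine ⟨-(2 * P), ?_⟩
  push_cast
  ring

theorem thd (tou : TouStatement) (sca : ScaStatement) (pxv : PxvStatement) (spe : SpeStatement)
    (nsd : NsdStatement) : ThdStatement := by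
  intro g K _ φ τ hτ z N p q hN hz x hx0 hμ'
  obtain ⟨rr, -, par, perd, ncz, kla⟩ := tou g τ hτ
  choose μ hμ using hμ'
  have hφ : Function.Injective φ := φ.injective
  have : CharZero K := (RingHom.charZero_iff hφ).2 inferInstance
  have hμ0 : ∀ k, μ k ≠ 0 := by
    intro k hk
    refine hx0 k (funext fun ab => hφ ?_)
    rw [hμ k ab, hk, zero_mul, Pi.zero_apply, map_zero]
  set θ : ℤ → (Fin g → ZMod 2) → ℂ := fun k c => Thc τ c (fun i => (k : ℂ) * z i) with hθ
  set V : ℤ → (Fin g → ZMod 2) × (Fin g → ZMod 2) → ℂ := fun k ab =>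
    Vab τ ab.1 ab.2 (fun i => (k : ℂ) * z i) with hV
  have hθne : ∀ k, ∃ c, θ k c ≠ 0 := fun k => ncz _
  have hθev : ∀ k c, θ (-k) c = θ k c := by
    intro k c
    have h1 := par c (fun i => (k : ℂ) * z i)
    have h2 : (fun i => ((-k : ℤ) : ℂ) * z i) = fun i => -((k : ℂ) * z i) := by
      funext i
      push_cast
      ring
    simp only [hθ]
    rw [h2, h1]
  have hVV : ∀ a b i j, V i (a, b) * V j (a, b) = RQ θ a b i j := by
    intro a b i j
    have h1 := rr a b (fun l => (i : ℂ) * z l) (fun l => (j : ℂ) * z l)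
    have h2 : (fun l => ((i + j : ℤ) : ℂ) * z l) = fun l => (i : ℂ) * z l + (j : ℂ) * z l := by
      funext l
      push_cast
      ring
    have h3 : (fun l => ((i - j : ℤ) : ℂ) * z l) = fun l => (i : ℂ) * z l - (j : ℂ) * z l := by
      funext l
      push_cast
      ring
    simp only [hV, hθ, RQ]
    rw [h2, h3, h1]
  have hx : ∀ k ab, φ (x k ab) = μ k * V k ab := hμ
  -- the period
  set Q : ℂ := ∑ i, ∑ j, (q i : ℂ) * τ i j * (q j : ℂ) with hQ
  set S : ℂ := ∑ i, (q i : ℂ) * z i with hS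
  set e : ℂ := Complex.exp (-(2 * Real.pi * Complex.I * Q)) with he
  set f : ℂ := Complex.exp (-(4 * Real.pi * Complex.I * S)) with hf
  have hNS : (N : ℂ) * S = ((∑ i, q i * p i : ℤ) : ℂ) + Q := by
    have h1 : (N : ℂ) * S = ∑ i, (q i : ℂ) * ((N : ℂ) * z i) := by
      rw [hS, Finset.mul_sum]
      refine Finset.sum_congr rfl fun i _ => ?_
      ring
    rw [h1]
    simp only [hz, mul_add, Finset.sum_add_distrib, Finset.mul_sum]
    rw [hQ]
    push_cast
    refine congrArg₂ (· + ·) rfl (Finset.sum_congr rfl fun i _ => Finset.sum_congr rfl fun j _ => ?_)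
    ring
  have hef : e ^ 2 = f ^ N := by
    rw [he, hf, ← Complex.exp_nat_mul, ← Complex.exp_nat_mul]
    have h1 : (N : ℂ) * -(4 * Real.pi * Complex.I * S) =
        -(4 * Real.pi * Complex.I * ((∑ i, q i * p i : ℤ) : ℂ)) +
          ((2 : ℕ) : ℂ) * -(2 * Real.pi * Complex.I * Q) := by
      have h2 : (N : ℂ) * -(4 * Real.pi * Complex.I * S) =
          -(4 * Real.pi * Complex.I) * ((N : ℂ) * S) := by ring
      rw [h2, hNS]
      push_cast
      ring
    rw [h1, Complex.exp_add, exp_neg_four_int, one_mul]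
  have hper : ∀ (k : ℤ) c, θ (k + N) c = e * f ^ k * θ k c := by
    intro k c
    have h1 := perd c (fun i => (k : ℂ) * z i) p q
    have h2 : (fun i => ((k + (N : ℤ) : ℤ) : ℂ) * z i) =
        fun i => (k : ℂ) * z i + ((p i : ℂ) + ∑ j, τ i j * (q j : ℂ)) := by
      funext i
      rw [← hz i]
      push_cast
      ring
    have h3 : Complex.exp (-(2 * Real.pi * Complex.I * ∑ i, ∑ j, (q i : ℂ) * τ i j * (q j : ℂ))
          - 4 * Real.pi * Complex.I * ∑ i, (q i : ℂ) * ((k : ℂ) * z i)) = e * f ^ k := by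
      rw [he, hf, ← Complex.exp_int_mul, ← Complex.exp_add]
      congr 1
      have h4 : ∑ i, (q i : ℂ) * ((k : ℂ) * z i) = (k : ℂ) * S := by
        rw [hS, Finset.mul_sum]
        refine Finset.sum_congr rfl fun i _ => ?_
        ring
      rw [h4]
      ring
    simp only [hθ]
    rw [h2, h1, h3]
  obtain ⟨ℓ, m, T, hℓ, hm, hT⟩ := sca g K φ θ V x μ hθne hθev hVV hx hμ0
  obtain ⟨hx1, hrk⟩ := pxv g K φ θ V x μ ℓ m T hθne hVV hx hμ0 hℓ hm hT
  obtain ⟨α, β, hα, hβ, hab, hperT⟩ := spe g K φ θ ℓ m e f N T hθne hℓ hm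
    (Complex.exp_ne_zero _) (Complex.exp_ne_zero _) hef hper hT
  have hT0 : ∀ k, T k ≠ 0 := by
    intro k hk
    obtain ⟨c, hc⟩ := hθne k
    have h1 := hT k c
    rw [hk, Pi.zero_apply, map_zero] at h1
    exact mul_ne_zero (mul_ne_zero hℓ (zpow_ne_zero _ hm)) hc h1.symm
  have hTev : ∀ k c, T (-k) c = T k c := by
    intro k c
    refine hφ ?_
    rw [hT, hT, neg_sq, hθev]
  refine ⟨α, β, T, nsd K g N α β T x hN hα hβ hab hT0 hx0 hperT hTev hx1 hrk, ?_⟩
  intro M r hr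
  refine kla (fun i => (M : ℂ) * z i) (φ r / m ^ ((M : ℤ) ^ 2)) N (fun i => (M : ℤ) * p i)
    (fun i => (M : ℤ) * q i) hN ?_ ?_
  · intro c
    have h1 := congrArg φ (hr c)
    rw [map_mul, hT, hT] at h1
    have h0 : θ 0 c = Thc τ c 0 := by
      have h2 : (fun i => (((0 : ℤ)) : ℂ) * z i) = 0 := by
        funext i
        simp
      simp only [hθ]
      rw [h2]
    have hMθ : θ (M : ℤ) c = Thc τ c (fun i => (M : ℂ) * z i) := by
      simp only [hθ, Int.cast_natCast]
    rw [h0, hMθ] at h1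
    have hmM : m ^ ((M : ℤ) ^ 2) ≠ 0 := zpow_ne_zero _ hm
    have h3 : ℓ * m ^ ((M : ℤ) ^ 2) * Thc τ c (fun i => (M : ℂ) * z i) =
        ℓ * m ^ ((M : ℤ) ^ 2) * (φ r / m ^ ((M : ℤ) ^ 2) * Thc τ c 0) := by
      rw [h1]
      have h4 : (m : ℂ) ^ ((0 : ℤ) ^ 2) = 1 := by simp
      rw [h4]
      field_simp
    exact mul_left_cancel₀ (mul_ne_zero hℓ hmM) h3
  · intro i
    have h1 : (N : ℂ) * ((M : ℂ) * z i) = (M : ℂ) * ((N : ℂ) * z i) := by ring
    change (N : ℂ) * ((M : ℂ) * z i) = (((M : ℤ) * p i : ℤ) : ℂ) +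
      ∑ j, τ i j * (((M : ℤ) * q j : ℤ) : ℂ)
    rw [h1, hz i, mul_add, Finset.mul_sum]
    push_cast
    refine congrArg₂ (· + ·) rfl (Finset.sum_congr rfl fun j _ => ?_)
    ring

end Pool.Agent.THS.H44
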